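import Pool.Agent.R557.PAAvg

set_option autoImplicit false

/-! Problem MP_cc6759_lc, question Q1: in both cases the average finite `π`-adic complexity of
the words of length `n` is `n / 2 + O(1)`. -/

namespace Pool.Agent.Results.MP_cc6759_lc.AverageFinite

open Module Pool.Agent.R557.PA

/-- The element `a_0 + a_1 π + ... + a_(m-1) π^(m-1)` of the ring: the residue modulo `π^m` of the
`π`-adic number of the digit sequence `a`. -/
def prefixValue {R : Type} [CommRing R] (π : R) {N : ℕ} (a : ℕ → Fin N) (m : ℕ) : R :=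
  ∑ i ∈ Finset.range m, ((a i : ℕ) : R) * π ^ i

/-- The sequence `a` is output by an AFSR with connection element `g`, and its `π`-adic number is
`f / g`: the element `g` is invertible modulo `π`, and `g * a = f`, that is, modulo `π^m` for
every `m`. -/
def Outputs {R : Type} [CommRing R] (π : R) {N : ℕ} (a : ℕ → Fin N) (f g : R) : Prop :=
  IsCoprime g π ∧ ∀ m : ℕ, π ^ m ∣ g * prefixValue π a m - f

/-- The `π`-adic complexity of the word `w` for the size function `φ`: the minimum (infimum) of the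
sizes `max (φ f) (φ g)` of the AFSRs whose output begins with `w`. -/
noncomputable def wordComplexity {R : Type} [CommRing R] (π : R) (φ : R → ℝ) {N n : ℕ}
    (w : Fin n → Fin N) : ℝ :=
  sInf {x : ℝ | ∃ (b : ℕ → Fin N) (f g : R), (∀ i : Fin n, b i = w i) ∧ Outputs π b f g ∧
    x = max (φ f) (φ g)}

/-- The average of the complexity over the `N^n` words of length `n`. -/
noncomputable def averageComplexity {R : Type} [CommRing R] (π : R) (φ : R → ℝ) (N n : ℕ) : ℝ :=
  (∑ w : Fin n → Fin N, wordComplexity π φ w) / (N : ℝ) ^ n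

/-- The size in case (i): `φ(u + v π) = log_N (u^2 + N v^2)`, where `u`, `v` are the coordinates
in the basis `1, π`. -/
noncomputable def sizeI {R : Type} [CommRing R] (N : ℕ) (b : Basis (Fin 2) ℤ R) (x : R) : ℝ :=
  Real.logb N ((b.repr x 0 : ℝ) ^ 2 + N * (b.repr x 1 : ℝ) ^ 2)

/-- The size in case (ii): `φ(u_0 + u_1 π + ... + u_(d-1) π^(d-1))` is the maximum of the numbers
`d log_N |u_i| + i` over the `i` with `u_i ≠ 0`. -/
noncomputable def sizeII {R : Type} [CommRing R] (N : ℕ) {d : ℕ} (b : Basis (Fin d) ℤ R) (x : R) :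
    ℝ :=
  sSup {y : ℝ | ∃ i : Fin d, b.repr x i ≠ 0 ∧
    y = d * Real.logb N |(b.repr x i : ℝ)| + ((i : ℕ) : ℝ)}

lemma val_eq {R : Type} [CommRing R] (S : Setup R) {n : ℕ} (w : Fin n → Fin S.N)
    (b : ℕ → Fin S.N) (h : ∀ i : Fin n, b i = w i) : S.val w = prefixValue S.p b n := by
  unfold Setup.val prefixValue
  rw [← Fin.sum_univ_eq_sum_range (fun i => ((b i : ℕ) : R) * S.p ^ i) n]
  apply Finset.sum_congr rfl
  intro i _
  rw [h i]

lemma ne_zero_of_coprime {R : Type} [CommRing R] (S : Setup R) {g : R} (h : IsCoprime g S.p) :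
    g ≠ 0 := by
  rintro rfl
  rw [isCoprime_zero_left] at h
  have h1 : S.p ∣ 1 := h.dvd
  rw [S.p_dvd_iff, S.co_one] at h1
  simp only [if_true] at h1
  have h2 := Int.le_of_dvd one_pos h1
  have := S.hN
  omega

lemma key {R : Type} [CommRing R] [IsDomain R] (S : Setup R) (φ : R → ℝ) (e : ℝ)
    (h0 : ∀ g, g ≠ 0 → 0 ≤ φ g)
    (hup : ∀ B, 1 ≤ B → ∀ x ∈ S.Box B, φ x ≤ (S.k + 1) * Real.logb S.N B + e)
    (hlow : ∀ x s, φ x < s → x ∈ S.Box ((S.N : ℝ) ^ (s / (S.k + 1))))
    (t : ℕ) (ht : S.k + 1 ≤ 2 ^ t) (n : ℕ) :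
    averageComplexity S.p φ S.N n ≤ n / 2 + (S.k + 1) * (19 / 2 + 3 / 2 * t) - 1 + e ∧
    (n : ℝ) / 2 - (2 * (S.k + 1) + 1) ≤ averageComplexity S.p φ S.N n := by
  have hbdd : ∀ w : Fin n → Fin S.N, BddBelow {x : ℝ | ∃ (b : ℕ → Fin S.N) (f g : R),
      (∀ i : Fin n, b i = w i) ∧ Outputs S.p b f g ∧ x = max (φ f) (φ g)} := by
    intro w
    refine ⟨0, ?_⟩
    rintro x ⟨b, f, g, -, h, rfl⟩
    exact le_trans (h0 g (ne_zero_of_coprime S h.1)) (le_max_right _ _)
  have hgood : ∀ (w : Fin n → Fin S.N) (f g : R), IsCoprime g S.p → S.p ^ n ∣ g * S.val w - f →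
      ∃ b : ℕ → Fin S.N, (∀ i : Fin n, b i = w i) ∧ Outputs S.p b f g := by
    intro w f g h1 h2
    obtain ⟨b, hb1, hb2⟩ := S.extend w h1 h2
    exact ⟨b, hb1, h1, hb2⟩
  have hne : ∀ w : Fin n → Fin S.N, {x : ℝ | ∃ (b : ℕ → Fin S.N) (f g : R),
      (∀ i : Fin n, b i = w i) ∧ Outputs S.p b f g ∧ x = max (φ f) (φ g)}.Nonempty := by
    intro w
    obtain ⟨b, h1, h2⟩ := hgood w (S.val w) 1 isCoprime_one_left
      (by rw [one_mul, sub_self]; exact dvd_zero _)
    exact ⟨_, b, _, _, h1, h2, rfl⟩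
  apply S.average (fun w => wordComplexity S.p φ w) e t ht
  · rintro w B hB ⟨f, g, hf, hg, hcop, hd⟩
    obtain ⟨b, h1, h2⟩ := hgood w f g hcop hd
    refine le_trans (csInf_le (hbdd w) ⟨b, f, g, h1, h2, rfl⟩) ?_
    exact max_le (hup B hB f hf) (hup B hB g hg)
  · intro w s hs
    obtain ⟨x, ⟨b, f, g, h1, h2, rfl⟩, hx⟩ := exists_lt_of_csInf_lt (hne w) hs
    refine ⟨f, g, hlow f s (lt_of_le_of_lt (le_max_left _ _) hx),
      hlow g s (lt_of_le_of_lt (le_max_right _ _) hx), h2.1, ?_⟩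
    rw [val_eq S w b h1]
    exact h2.2 n

lemma exists_co_ne {R : Type} [CommRing R] (S : Setup R) {x : R} (h : x ≠ 0) :
    ∃ i, S.co x i ≠ 0 := by
  by_contra hcon
  push Not at hcon
  apply h
  apply S.ext_co
  intro i
  rw [hcon i, S.co_zero]

/-- In case (i), for every `N ≥ 2` and every domain `R` with a basis `1, π` over the integers such
that `π^2 = -N`, and in case (ii), for every `N ≥ 2`, `d ≥ 1` and every domain `R` with a basis
`1, π, ..., π^(d-1)` over the integers such that `π^d = N`, the average complexity of the words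
of length `n` is `n / 2 + O(1)`. -/
theorem result :
    (∀ N : ℕ, 2 ≤ N → ∀ (R : Type) [CommRing R] [IsDomain R] (π : R) (b : Basis (Fin 2) ℤ R),
      (∀ i, b i = π ^ (i : ℕ)) → π ^ 2 = -(N : R) →
      ∀ n : ℕ, |averageComplexity π (sizeI N b) N n - n / 2| ≤ 22) ∧
    (∀ d : ℕ, 1 ≤ d → ∀ N : ℕ, 2 ≤ N → ∀ (R : Type) [CommRing R] [IsDomain R] (π : R)
      (b : Basis (Fin d) ℤ R), (∀ i, b i = π ^ (i : ℕ)) → π ^ d = (N : R) →
      ∀ n : ℕ, |averageComplexity π (sizeII N b) N n - n / 2| ≤ 10 * d * (1 + Nat.clog 2 d)) := by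
  constructor
  · intro N hN R _ _ π b hb hπ n
    let S : Setup R :=
      { k := 1, N := N, hN := hN, c := -(N : ℤ), hc := by simp, p := π, b := b, hb := hb,
        hp := by rw [hπ]; push_cast; rfl }
    have hSk : ((S.k : ℕ) : ℝ) = 1 := by
      have : S.k = 1 := rfl
      rw [this]; simp
    have hN1 : (1 : ℝ) < N := by exact_mod_cast (by omega : 1 < N)
    have hN2 : (2 : ℝ) ≤ N := by exact_mod_cast hN
    have hNpos : (0 : ℝ) < N := by linarith
    have hnu2 : S.nu ^ 2 = N := S.nu_pow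
    have hco0 : ∀ x, b.repr x 0 = S.co x (0 : Fin 2) := fun _ => rfl
    have hco1 : ∀ x, b.repr x 1 = S.co x (1 : Fin 2) := fun _ => rfl
    have H := key S (sizeI N b) 1 ?_ ?_ ?_ 1 (by change 1 + 1 ≤ 2 ^ 1; norm_num) n
    · rw [hSk] at H
      obtain ⟨h1, h2⟩ := H
      change averageComplexity π (sizeI N b) N n ≤ _ at h1
      change _ ≤ averageComplexity π (sizeI N b) N n at h2
      rw [abs_le]
      constructor <;> linarith
    · intro g hg
      unfold sizeI
      apply Real.logb_nonneg hN1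
      obtain ⟨i, hi⟩ := exists_co_ne S hg
      have h3 : (1 : ℝ) ≤ (S.co g i : ℝ) ^ 2 := by
        have h4 : (1 : ℤ) ≤ (S.co g i) ^ 2 := by
          have := pow_pos (abs_pos.2 hi) 2
          rw [sq_abs] at this
          omega
        exact_mod_cast h4
      have hi' : i = (0 : Fin 2) ∨ i = (1 : Fin 2) := by
        have := i.isLt
        have h5 : S.k + 1 = 2 := rfl
        have : (i : ℕ) = 0 ∨ (i : ℕ) = 1 := by omega
        rcases this with h | h
        · left; exact Fin.ext h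
        · right; exact Fin.ext h
      have hs0 := sq_nonneg (b.repr g 0 : ℝ)
      have hs1 := sq_nonneg (b.repr g 1 : ℝ)
      rcases hi' with rfl | rfl
      · have h6 : (1 : ℝ) ≤ (b.repr g 0 : ℝ) ^ 2 := h3
        nlinarith
      · have h6 : (1 : ℝ) ≤ (b.repr g 1 : ℝ) ^ 2 := h3
        nlinarith
    · intro B hB x hx
      rw [hSk]
      change sizeI N b x ≤ (1 + 1) * Real.logb N B + 1
      have hx0 : |(b.repr x 0 : ℝ)| * S.nu ^ 0 ≤ B := hx (0 : Fin 2)
      have hx1 : |(b.repr x 1 : ℝ)| * S.nu ^ 1 ≤ B := hx (1 : Fin 2)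
      rw [pow_zero, mul_one] at hx0
      rw [pow_one] at hx1
      have e0 : (b.repr x 0 : ℝ) ^ 2 ≤ B ^ 2 := by
        rw [← sq_abs]
        exact pow_le_pow_left₀ (abs_nonneg _) hx0 2
      have e1 : N * (b.repr x 1 : ℝ) ^ 2 ≤ B ^ 2 := by
        have := pow_le_pow_left₀ (mul_nonneg (abs_nonneg _) S.nu_pos.le) hx1 2
        rw [mul_pow, sq_abs, hnu2] at this
        linarith
      have hlogB : 0 ≤ Real.logb N B := Real.logb_nonneg hN1 hB
      unfold sizeI
      by_cases hz : (b.repr x 0 : ℝ) ^ 2 + N * (b.repr x 1 : ℝ) ^ 2 = 0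
      · rw [hz, Real.logb_zero]
        linarith
      · have hpos : 0 < (b.repr x 0 : ℝ) ^ 2 + N * (b.repr x 1 : ℝ) ^ 2 :=
          lt_of_le_of_ne (by positivity) (Ne.symm hz)
        calc Real.logb N ((b.repr x 0 : ℝ) ^ 2 + N * (b.repr x 1 : ℝ) ^ 2)
            ≤ Real.logb N (N * B ^ 2) := by
              apply Real.logb_le_logb_of_le hN1 hpos
              nlinarith [sq_nonneg B]
          _ = (1 + 1) * Real.logb N B + 1 := by
              rw [Real.logb_mul (by positivity) (by positivity), Real.logb_self_eq_one hN1,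
                Real.logb_pow]
              push_cast
              ring
    · intro x s hs
      have hBs : ((S.N : ℝ) ^ (s / (S.k + 1))) ^ 2 = (N : ℝ) ^ s := by
        rw [hSk]
        change ((N : ℝ) ^ (s / (1 + 1))) ^ 2 = (N : ℝ) ^ s
        rw [← Real.rpow_natCast, ← Real.rpow_mul hNpos.le]
        congr 1
        push_cast
        ring
      have hBpos : 0 < ((S.N : ℝ) ^ (s / (S.k + 1))) := Real.rpow_pos_of_pos hNpos _
      by_cases hx0 : x = 0
      · rw [hx0]
        exact S.zero_mem_Box hBpos.le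
      have hpos : 0 < (b.repr x 0 : ℝ) ^ 2 + N * (b.repr x 1 : ℝ) ^ 2 := by
        have h3 : 0 ≤ (b.repr x 0 : ℝ) ^ 2 + N * (b.repr x 1 : ℝ) ^ 2 := by positivity
        refine lt_of_le_of_ne h3 ?_
        intro h4
        apply hx0
        have h5 : (b.repr x 0 : ℝ) ^ 2 = 0 := by
          have e1 := sq_nonneg (b.repr x 0 : ℝ)
          have e2 := mul_nonneg hNpos.le (sq_nonneg (b.repr x 1 : ℝ))
          linarith
        have h6 : (b.repr x 1 : ℝ) ^ 2 = 0 := by
          rw [h5, zero_add] at h4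
          exact (mul_eq_zero.1 h4.symm).resolve_left hNpos.ne'
        rw [sq_eq_zero_iff] at h5 h6
        apply S.ext_co
        intro i
        have hi' : i = (0 : Fin 2) ∨ i = (1 : Fin 2) := by
          have := i.isLt
          have h5 : S.k + 1 = 2 := rfl
          have : (i : ℕ) = 0 ∨ (i : ℕ) = 1 := by omega
          rcases this with h | h
          · left; exact Fin.ext h
          · right; exact Fin.ext h
        rw [S.co_zero]
        rcases hi' with rfl | rfl
        · exact_mod_cast h5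
        · exact_mod_cast h6
      unfold sizeI at hs
      rw [Real.logb_lt_iff_lt_rpow hN1 hpos] at hs
      have g0 : |(b.repr x 0 : ℝ)| ≤ (S.N : ℝ) ^ (s / (S.k + 1)) := by
        apply abs_le_of_sq_le_sq _ hBpos.le
        rw [hBs]
        have e2 := mul_nonneg hNpos.le (sq_nonneg (b.repr x 1 : ℝ))
        linarith
      have g1 : |(b.repr x 1 : ℝ)| * S.nu ≤ (S.N : ℝ) ^ (s / (S.k + 1)) := by
        apply le_of_sq_le_sq _ hBpos.le
        rw [hBs, mul_pow, sq_abs, hnu2]
        have e2 := sq_nonneg (b.repr x 0 : ℝ)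
        linarith
      intro i
      have hi' : i = (0 : Fin 2) ∨ i = (1 : Fin 2) := by
        have := i.isLt
        have h5 : S.k + 1 = 2 := rfl
        have : (i : ℕ) = 0 ∨ (i : ℕ) = 1 := by omega
        rcases this with h | h
        · left; exact Fin.ext h
        · right; exact Fin.ext h
      rcases hi' with rfl | rfl
      · change |(b.repr x 0 : ℝ)| * S.nu ^ 0 ≤ _
        rw [pow_zero, mul_one]
        exact g0
      · change |(b.repr x 1 : ℝ)| * S.nu ^ 1 ≤ _
        rw [pow_one]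
        exact g1
  · intro d hd N hN R _ _ π b hb hπ n
    obtain ⟨k, rfl⟩ : ∃ k, d = k + 1 := ⟨d - 1, by omega⟩
    let S : Setup R :=
      { k := k, N := N, hN := hN, c := (N : ℤ), hc := by simp, p := π, b := b, hb := hb,
        hp := by rw [hπ]; push_cast; rfl }
    have hN1 : (1 : ℝ) < N := by exact_mod_cast (by omega : 1 < N)
    have hN2 : (2 : ℝ) ≤ N := by exact_mod_cast hN
    have hNpos : (0 : ℝ) < N := by linarith
    have hkpos : (0 : ℝ) < (k : ℝ) + 1 := by positivity
    have hlogu : ∀ (u : ℤ) (i : ℕ), u ≠ 0 →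
        ((k + 1 : ℕ) : ℝ) * Real.logb N |(u : ℝ)| + (i : ℝ) =
          (k + 1) * Real.logb N (|(u : ℝ)| * S.nu ^ i) := by
      intro u i hu
      have hu' : |(u : ℝ)| ≠ 0 := abs_ne_zero.2 (by exact_mod_cast hu)
      have hnu := S.nu_pos
      rw [Real.logb_mul hu' (by positivity), Real.logb_pow]
      have h1 : Real.logb N S.nu = 1 / ((k + 1 : ℕ) : ℝ) := S.logb_nu
      rw [h1]
      push_cast
      field_simp
    have hfin : ∀ x, BddAbove {y : ℝ | ∃ i : Fin (k + 1), b.repr x i ≠ 0 ∧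
        y = ((k + 1 : ℕ) : ℝ) * Real.logb N |(b.repr x i : ℝ)| + ((i : ℕ) : ℝ)} := by
      intro x
      apply Set.Finite.bddAbove
      apply (Set.finite_range (fun i : Fin (k + 1) =>
        ((k + 1 : ℕ) : ℝ) * Real.logb N |(b.repr x i : ℝ)| + ((i : ℕ) : ℝ))).subset
      rintro y ⟨i, -, rfl⟩
      exact ⟨i, rfl⟩
    have H := key S (sizeII N b) 0 ?_ ?_ ?_ (Nat.clog 2 (k + 1))
      (Nat.le_pow_clog (by norm_num) _) n
    · obtain ⟨h1, h2⟩ := H
      change averageComplexity π (sizeII N b) N n ≤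
        n / 2 + ((k : ℝ) + 1) * (19 / 2 + 3 / 2 * (Nat.clog 2 (k + 1) : ℕ)) - 1 + 0 at h1
      change (n : ℝ) / 2 - (2 * ((k : ℝ) + 1) + 1) ≤ averageComplexity π (sizeII N b) N n at h2
      have ht : (0 : ℝ) ≤ (Nat.clog 2 (k + 1) : ℕ) := Nat.cast_nonneg _
      have hk0 : (0 : ℝ) ≤ k := Nat.cast_nonneg _
      rw [abs_le]
      push_cast
      constructor
      · nlinarith [mul_nonneg hk0 ht]
      · nlinarith [mul_nonneg hk0 ht]
    · intro g hg
      obtain ⟨i, hi⟩ := exists_co_ne S hg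
      have hi' : b.repr g i ≠ 0 := hi
      unfold sizeII
      refine le_trans ?_ (le_csSup (hfin g) ⟨i, hi', rfl⟩)
      have h3 : (1 : ℝ) ≤ |(b.repr g i : ℝ)| := by
        have := Int.one_le_abs hi'
        exact_mod_cast this
      have h4 := Real.logb_nonneg hN1 h3
      positivity
    · intro B hB x hx
      change sizeII N b x ≤ ((k : ℝ) + 1) * Real.logb N B + 0
      rw [add_zero]
      have hlogB : 0 ≤ Real.logb N B := Real.logb_nonneg hN1 hB
      unfold sizeII
      apply Real.sSup_le _ (by positivity)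
      rintro y ⟨i, hi, rfl⟩
      rw [hlogu _ _ hi]
      apply mul_le_mul_of_nonneg_left _ hkpos.le
      have hnu := S.nu_pos
      have hu' : 0 < |(b.repr x i : ℝ)| := abs_pos.2 (by exact_mod_cast hi)
      apply Real.logb_le_logb_of_le hN1 (by positivity)
      exact hx i
    · intro x s hs i
      change |(b.repr x i : ℝ)| * S.nu ^ (i : ℕ) ≤ (N : ℝ) ^ (s / ((k : ℝ) + 1))
      by_cases hi : b.repr x i = 0
      · rw [hi]
        simp only [Int.cast_zero, abs_zero, zero_mul]
        exact Real.rpow_nonneg hNpos.le _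
      · unfold sizeII at hs
        have h3 := lt_of_le_of_lt (le_csSup (hfin x) ⟨i, hi, rfl⟩) hs
        rw [hlogu _ _ hi] at h3
        have hnu := S.nu_pos
        have hu' : 0 < |(b.repr x i : ℝ)| := abs_pos.2 (by exact_mod_cast hi)
        have h4 : Real.logb N (|(b.repr x i : ℝ)| * S.nu ^ (i : ℕ)) < s / ((k : ℝ) + 1) := by
          rw [lt_div_iff₀ hkpos]
          linarith
        rw [Real.logb_lt_iff_lt_rpow hN1 (by positivity)] at h4
        exact h4.le

end Pool.Agent.Results.MP_cc6759_lc.AverageFinite
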